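import Mathlib
import Pool.Agent.H41.CO.Defs

set_option autoImplicit false

/-!
# Cycle odd-covers: from permutations to cycles
-/

namespace Pool.Agent.H873.CO

open Equiv Pool.Agent.H41.CO Function

theorem vec_invol {V : Type} [DecidableEq V] (σ : Perm V) (h : ∀ x, σ (σ x) = x) (u v : V) :
    vec σ u v = 0 := by
  have e : (σ u = v) ↔ (σ v = u) := by
    constructor
    · rintro rfl; exact h u
    · rintro rfl; exact h v
  unfold vec
  by_cases h1 : σ u = v
  · rw [if_pos h1, if_pos (e.1 h1)]; decide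
  · rw [if_neg h1, if_neg (fun h2 => h1 (e.2 h2))]; decide

open Classical in
theorem exists_cyc {V : Type} [Fintype V] [DecidableEq V] (σ : Perm V) (hσ : OneCyc σ)
    (h : ∃ x, σ (σ x) ≠ x) :
    ∃ C : SimpleGraph V, IsCyc C ∧ ∀ u v, u ≠ v → vec σ u v = if C.Adj u v then 1 else 0 := by
  obtain ⟨x, hx⟩ := h
  have hx1 : σ x ≠ x := fun e => hx (by rw [e, e])
  set m := minimalPeriod σ x with hm
  have hpos : 0 < m := by
    apply IsPeriodicPt.minimalPeriod_pos (n := orderOf σ) (orderOf_pos σ)
    show σ^[orderOf σ] x = x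
    rw [Equiv.Perm.iterate_eq_pow, pow_orderOf_eq_one]; rfl
  have hm1 : m ≠ 1 := by
    intro e
    have := iterate_minimalPeriod (f := σ) (x := x)
    rw [← hm, e] at this
    exact hx1 this
  have hm2 : m ≠ 2 := by
    intro e
    have := iterate_minimalPeriod (f := σ) (x := x)
    rw [← hm, e] at this
    exact hx this
  have hm3 : 3 ≤ m := by omega
  have : NeZero m := ⟨by omega⟩
  have : Fact (1 < m) := ⟨by omega⟩
  set w : ZMod m → V := fun i => σ^[i.val] x with hw
  have winj : Injective w := by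
    intro i j hij
    have h1 := iterate_injOn_Iio_minimalPeriod (f := σ) (x := x)
    have := h1 (show i.val ∈ Set.Iio m from ZMod.val_lt i) (show j.val ∈ Set.Iio m from ZMod.val_lt j) hij
    exact ZMod.val_injective m this
  have wnat : ∀ n : ℕ, w (n : ZMod m) = σ^[n] x := by
    intro n
    show σ^[((n : ZMod m)).val] x = σ^[n] x
    rw [ZMod.val_natCast, iterate_mod_minimalPeriod_eq]
  have wsucc : ∀ i, w (i + 1) = σ (w i) := by
    intro i
    have h1 : i = ((i.val : ℕ) : ZMod m) := (ZMod.natCast_zmod_val i).symm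
    have h2 : w (((i.val + 1 : ℕ) : ZMod m)) = σ^[i.val + 1] x := wnat _
    rw [iterate_succ_apply'] at h2
    rw [← h2]
    congr 1
    push_cast
    rw [← h1]
  have one_ne : (1 : ZMod m) ≠ 0 := one_ne_zero
  have two_ne : (1 : ZMod m) + 1 ≠ 0 := by
    intro e
    have : ((2 : ℕ) : ZMod m) = 0 := by push_cast; rw [← e]; norm_num
    rw [ZMod.natCast_eq_zero_iff] at this
    have := Nat.le_of_dvd (by norm_num) this
    omega
  have wsurj : ∀ u, σ u ≠ u → ∃ i, w i = u := by
    intro u hu
    obtain ⟨n, hn⟩ := (hσ x u hx1 hu).exists_nat_pow_eq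
    refine ⟨(n : ZMod m), ?_⟩
    rw [wnat, Equiv.Perm.iterate_eq_pow, hn]
  let C : SimpleGraph V :=
    { Adj := fun u v => ∃ i, (w i = u ∧ w (i + 1) = v) ∨ (w i = v ∧ w (i + 1) = u)
      symm := ⟨by
        rintro u v ⟨i, h | h⟩
        · exact ⟨i, Or.inr h⟩
        · exact ⟨i, Or.inl h⟩⟩
      loopless := ⟨by
        rintro u ⟨i, h | h⟩
        · have := winj (h.1.trans h.2.symm)
          exact one_ne (by simpa using this.symm)
        · have := winj (h.1.trans h.2.symm)
          exact one_ne (by simpa using this.symm)⟩ }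
  refine ⟨C, ⟨m, hm3, w, winj, fun u v => Iff.rfl⟩, ?_⟩
  intro u v huv
  have hadj : C.Adj u v ↔ (σ u = v ∨ σ v = u) := by
    constructor
    · rintro ⟨i, ⟨rfl, rfl⟩ | ⟨rfl, rfl⟩⟩
      · exact Or.inl (wsucc i).symm
      · exact Or.inr (wsucc i).symm
    · rintro (rfl | rfl)
      · obtain ⟨i, rfl⟩ := wsurj u (Ne.symm huv)
        exact ⟨i, Or.inl ⟨rfl, wsucc i⟩⟩
      · obtain ⟨i, rfl⟩ := wsurj v huv
        exact ⟨i, Or.inr ⟨rfl, wsucc i⟩⟩
  have hnot : ¬ (σ u = v ∧ σ v = u) := by
    rintro ⟨rfl, h2⟩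
    obtain ⟨i, rfl⟩ := wsurj u (Ne.symm huv)
    rw [← wsucc, ← wsucc] at h2
    have := winj h2
    exact two_ne (by rwa [add_assoc, add_eq_left] at this)
  unfold vec
  by_cases h1 : σ u = v
  · have h2 : ¬ σ v = u := fun h2 => hnot ⟨h1, h2⟩
    rw [if_pos h1, if_neg h2, if_pos (hadj.2 (Or.inl h1))]; decide
  · by_cases h2 : σ v = u
    · rw [if_neg h1, if_pos h2, if_pos (hadj.2 (Or.inr h2))]; decide
    · rw [if_neg h1, if_neg h2, if_neg (fun h3 => (hadj.1 h3).elim h1 h2)]; decide

open Classical in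
theorem conv : S_CONV := by
  intro V _ _ G k ⟨σ, hσ, hs⟩
  set K : Finset (Fin k) := Finset.univ.filter fun i => ∃ x, σ i (σ i x) ≠ x with hK
  have key : ∀ i : Fin k, ∃ C : SimpleGraph V, i ∈ K → (IsCyc C ∧
      ∀ u v, u ≠ v → vec (σ i) u v = if C.Adj u v then 1 else 0) := by
    intro i
    by_cases hi : i ∈ K
    · have := (Finset.mem_filter.1 hi).2
      obtain ⟨C, hC⟩ := exists_cyc (σ i) (hσ i) this
      exact ⟨C, fun _ => hC⟩
    · exact ⟨⊥, fun h => absurd h hi⟩
  choose C hC using key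
  refine ⟨K.card, by simpa using K.card_le_univ, fun j => C (K.equivFin.symm j), ?_, ?_⟩
  · intro j
    exact (hC _ (K.equivFin.symm j).2).1
  · intro u v
    by_cases huv : u = v
    · subst huv
      simp
    · have h1 : (∑ i, vec (σ i) u v) = (({j : Fin K.card | (C (K.equivFin.symm j)).Adj u v}.ncard : ℕ) : ZMod 2) := by
        have e1 : (∑ i, vec (σ i) u v) = ∑ i ∈ K, vec (σ i) u v := by
          symm
          apply Finset.sum_subset (Finset.subset_univ K)
          intro i _ hi
          apply vec_invol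
          intro x
          by_contra hx
          exact hi (Finset.mem_filter.2 ⟨Finset.mem_univ _, x, hx⟩)
        have e2 : ∑ i ∈ K, vec (σ i) u v = ∑ i ∈ K, (if (C i).Adj u v then (1 : ZMod 2) else 0) :=
          Finset.sum_congr rfl fun i hi => (hC i hi).2 u v huv
        have e3 : ∑ i ∈ K, (if (C i).Adj u v then (1 : ZMod 2) else 0) =
            ∑ j : Fin K.card, (if (C (K.equivFin.symm j)).Adj u v then (1 : ZMod 2) else 0) := by
          rw [← Finset.sum_coe_sort K (fun i => if (C i).Adj u v then (1 : ZMod 2) else 0)]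
          exact (Equiv.sum_comp K.equivFin.symm
            (fun i : K => if (C i).Adj u v then (1 : ZMod 2) else 0)).symm
        rw [e1, e2, e3, Finset.sum_boole]
        congr 1
        rw [Set.ncard_eq_toFinset_card']
        congr 1
        ext j
        simp
      rw [← ZMod.natCast_eq_one_iff_odd, ← h1, hs u v huv]
      unfold adj
      by_cases h : G.Adj u v
      · simp [h]
      · simp [h]

end Pool.Agent.H873.CO
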